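import Pool.Agent.MP_fa9df5_co.Strong

/-!
Every convex body in three-space has a dissection into three convex bodies, each of strictly
smaller maximal plane section.
-/

set_option autoImplicit false

open MeasureTheory
open scoped ENNReal

namespace Pool.Agent.Results.MP_fa9df5_co.ThreePieces

/-- Every convex body `D` in three-space is the union of three convex bodies with pairwise
disjoint interiors, each of which has a smaller maximal plane section than `D`. -/
theorem result (D : Set (EuclideanSpace ℝ (Fin 3))) (hcompact : IsCompact D)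
    (hconvex : Convex ℝ D) (hinterior : (interior D).Nonempty) :
    ∃ D₁ D₂ D₃ : Set (EuclideanSpace ℝ (Fin 3)),
      (IsCompact D₁ ∧ IsCompact D₂ ∧ IsCompact D₃) ∧
      (Convex ℝ D₁ ∧ Convex ℝ D₂ ∧ Convex ℝ D₃) ∧
      ((interior D₁).Nonempty ∧ (interior D₂).Nonempty ∧ (interior D₃).Nonempty) ∧
      D₁ ∪ D₂ ∪ D₃ = D ∧
      (Disjoint (interior D₁) (interior D₂) ∧ Disjoint (interior D₁) (interior D₃) ∧
        Disjoint (interior D₂) (interior D₃)) ∧
      (Pool.Agent.MP_fa9df5_co.sigma D₁ < Pool.Agent.MP_fa9df5_co.sigma D ∧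
        Pool.Agent.MP_fa9df5_co.sigma D₂ < Pool.Agent.MP_fa9df5_co.sigma D ∧
        Pool.Agent.MP_fa9df5_co.sigma D₃ < Pool.Agent.MP_fa9df5_co.sigma D) := by
  obtain ⟨D₁, D₂, D₃, ⟨c1, c2, c3⟩, hv, hi, hu, hd, hs⟩ :=
    Pool.Agent.MP_fa9df5_co.best_of_good hconvex hinterior
      (Pool.Agent.MP_fa9df5_co.main_weak hcompact hconvex hinterior)
  refine ⟨D₁, D₂, D₃, ⟨?_, ?_, ?_⟩, hv, hi, hu, hd, hs⟩
  · apply hcompact.of_isClosed_subset c1
    rw [← hu]
    exact Set.subset_union_left.trans Set.subset_union_left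
  · apply hcompact.of_isClosed_subset c2
    rw [← hu]
    exact Set.subset_union_right.trans Set.subset_union_left
  · apply hcompact.of_isClosed_subset c3
    rw [← hu]
    exact Set.subset_union_right

end Pool.Agent.Results.MP_fa9df5_co.ThreePieces
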